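import Mathlib.Analysis.InnerProductSpace.PiL2

/-! The plane building race for a family of sub-configurations of the `3 × 3` grid. -/

namespace Pool.Agent.MP_32430d_co

/-- `P` contains a congruent copy of some member `T` of the family `F` of subsets of the grid
`{0,1,2}²`: a map `e` that preserves the distances between the points of `T` sends `T` into `P`. -/
def Owns (F : Set (Finset (Fin 3 × Fin 3))) (P : Set (EuclideanSpace ℝ (Fin 2))) : Prop :=
  ∃ T ∈ F, ∃ e : Fin 3 × Fin 3 → EuclideanSpace ℝ (Fin 2),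
    (∀ a ∈ T, ∀ b ∈ T, dist (e a) (e b) =
      Real.sqrt ((((a.1 : ℕ) : ℝ) - ((b.1 : ℕ) : ℝ)) ^ 2 + (((a.2 : ℕ) : ℝ) - ((b.2 : ℕ) : ℝ)) ^ 2)) ∧
    ∀ a ∈ T, e a ∈ P

/-- The first player has a strategy `σ` which always picks new points and, against every legal
opponent, owns a congruent copy of a member of `F` after at most `N` of his own moves, at a time
when the opponent owns no congruent copy of a member of `F`. -/
def FirstWins (F : Set (Finset (Fin 3 × Fin 3))) (N : ℕ) : Prop :=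
  ∃ σ : List (EuclideanSpace ℝ (Fin 2)) → EuclideanSpace ℝ (Fin 2),
    ∀ x : ℕ → EuclideanSpace ℝ (Fin 2),
      (∀ k : ℕ, x (2 * k) = σ (List.ofFn (fun i : Fin (2 * k) => x i))) →
      (∀ k : ℕ, ∀ j : ℕ, j < 2 * k + 1 → x (2 * k + 1) ≠ x j) →
      (∀ k : ℕ, ∀ j : ℕ, j < 2 * k → x (2 * k) ≠ x j) ∧
      ∃ n : ℕ, n < N ∧ Owns F {p | ∃ i : ℕ, i ≤ n ∧ p = x (2 * i)} ∧
        ¬ Owns F {p | ∃ i : ℕ, i < n ∧ p = x (2 * i + 1)}

end Pool.Agent.MP_32430d_co
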