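import Pool.Agent.MP_32430d_co.Race
import Mathlib.Geometry.Euclidean.Basic
import Mathlib.Analysis.Complex.Basic
import Mathlib.LinearAlgebra.Complex.FiniteDimensional

/-! The race for a four-point set in the complex plane. -/

set_option autoImplicit false

open Set

namespace Pool.Agent.MP_32430d_co.Four

open Race

/-- two circles with different centres meet in a finite set -/
theorem circ {p q : ℂ} (h : p ≠ q) (r s : ℝ) : {z : ℂ | dist z p = r ∧ dist z q = s}.Finite := by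
  by_cases c : {z : ℂ | dist z p = r ∧ dist z q = s}.Subsingleton
  · exact c.finite
  · obtain ⟨a, ha, b, hb, e⟩ := not_subsingleton_iff.1 c
    refine (toFinite {a, b}).subset fun z hz => ?_
    exact EuclideanGeometry.eq_of_dist_eq_of_dist_eq_of_finrank_eq_two Complex.finrank_real_complex
      h e ha.1 hb.1 hz.1 ha.2 hb.2 hz.2

theorem unit_inf : {u : ℂ | ‖u‖ = 1}.Infinite := by
  refine infinite_of_injOn_mapsTo (s := Ioo (0 : ℝ) 1)
    (f := fun x => (x : ℂ) + (Real.sqrt (1 - x ^ 2) : ℂ) * Complex.I) ?_ ?_ (Ioo_infinite one_pos)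
  · intro x _ y _ e
    simpa using congrArg Complex.re e
  · intro x hx
    have : 0 ≤ 1 - x ^ 2 := by nlinarith [hx.1, hx.2]
    show ‖(x : ℂ) + (Real.sqrt (1 - x ^ 2) : ℂ) * Complex.I‖ = 1
    rw [Complex.norm_add_mul_I, Real.sq_sqrt this]
    simp

/-- the distance of `x` and `y` is not in `D` -/
def Far (D : Set ℝ) (x y : ℂ) : Prop := dist x y ∉ D

variable {D : Set ℝ}

theorem Far.symm {x y : ℂ} (h : Far D x y) : Far D y x := by rwa [Far, dist_comm]

instance : Std.Symm (Far D) := ⟨fun _ _ h => h.symm⟩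

theorem Far.ne (h0 : (0 : ℝ) ∈ D) {x y : ℂ} (h : Far D x y) : x ≠ y := by
  rintro rfl
  exact h (by simpa using h0)

theorem far_iff {t u : ℂ} (hu : ‖u‖ = 1) (x y : ℂ) : Far D (t + u * x) (t + u * y) ↔ Far D x y := by
  rw [Far, Far, dist_add_left, dist_eq_norm, dist_eq_norm, ← mul_sub, norm_mul, hu, one_mul]

/-- a generic rotation -/
theorem generic (hD : D.Finite) {S V : Set ℂ} (hS : S.Finite) (hV : V.Finite) :
    ∃ u : ℂ, ‖u‖ = 1 ∧ ∀ s ∈ S, ∀ s' ∈ S, ∀ v ∈ V, ∀ v' ∈ V, s ≠ s' → v ≠ v' →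
      Far D (s + u * v) (s' + u * v') := by
  have : (⋃ s ∈ S, ⋃ s' ∈ S, ⋃ v ∈ V, ⋃ v' ∈ V, ⋃ d ∈ D,
      {u : ℂ | s ≠ s' ∧ v ≠ v' ∧ ‖u‖ = 1 ∧ dist (s + u * v) (s' + u * v') = d}).Finite := by
    refine hS.biUnion fun s _ => hS.biUnion fun s' _ => hV.biUnion fun v _ => hV.biUnion
      fun v' _ => hD.biUnion fun d _ => ?_
    by_cases c : s ≠ s' ∧ v ≠ v'
    · have h1 : v - v' ≠ 0 := sub_ne_zero.2 c.2
      have h2 : (0 : ℂ) ≠ (s' - s) / (v - v') :=
        (div_ne_zero (sub_ne_zero.2 c.1.symm) h1).symm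
      refine (circ h2 1 (d / ‖v - v'‖)).subset fun u hu => ⟨by simpa using hu.2.2.1, ?_⟩
      rw [← hu.2.2.2, dist_eq_norm, dist_eq_norm, ← norm_div]
      congr 1
      field_simp
      ring
    · exact finite_empty.subset fun u hu => c ⟨hu.1, hu.2.1⟩
  obtain ⟨u, h1, h2⟩ := unit_inf.exists_notMem_finite this
  refine ⟨u, h1, fun s hs s' hs' v hv v' hv' a b e => h2 ?_⟩
  simp only [mem_iUnion]
  exact ⟨s, hs, s', hs', v, hv, v', hv', _, e, a, b, h1, rfl⟩

/-- no three points at mutual distances in `D` -/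
def NoTri (D : Set ℝ) (Y : Set ℂ) : Prop := ∀ a ∈ Y, ∀ b ∈ Y, ∀ c ∈ Y, a ≠ b → a ≠ c → b ≠ c →
  Far D a b ∨ Far D a c ∨ Far D b c

theorem tri1 {Z : Set ℂ} (h : Z.Pairwise (Far D)) (y : ℂ) : NoTri D (insert y Z) := by
  rintro a (rfl | ha) b (rfl | hb) c (rfl | hc) h1 h2 h3
  · exact absurd rfl h1
  · exact absurd rfl h1
  · exact absurd rfl h2
  · exact Or.inr (Or.inr (h hb hc h3))
  · exact absurd rfl h3
  · exact Or.inr (Or.inl (h ha hc h2))
  · exact Or.inl (h ha hb h1)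
  · exact Or.inl (h ha hb h1)

theorem tri2 {Z : Set ℂ} (h : Z.Pairwise (Far D)) {y p q : ℂ} (hp : ∀ z ∈ Z, Far D z p)
    (hq : ∀ z ∈ Z, Far D z q) (hy : Far D y p ∨ Far D y q) :
    NoTri D (insert q (insert p (insert y Z))) := by
  have k : ∀ z ∈ Z, ∀ w ∈ insert q (insert p (insert y Z)), w ≠ z → w = y ∨ Far D z w := by
    rintro z hz w (rfl | rfl | rfl | hw) e
    exacts [Or.inr (hq z hz), Or.inr (hp z hz), Or.inl rfl, Or.inr (h hz hw e.symm)]
  have k2 : ∀ z ∈ Z, ∀ v ∈ insert q (insert p (insert y Z)), ∀ w ∈ insert q (insert p (insert y Z)),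
      v ≠ z → w ≠ z → v ≠ w → Far D z v ∨ Far D z w := by
    intro z hz v hv w hw e1 e2 e3
    rcases k z hz v hv e1 with a | a
    · rcases k z hz w hw e2 with b | b
      · exact absurd (a.trans b.symm) e3
      · exact Or.inr b
    · exact Or.inl a
  intro a ha b hb c hc h1 h2 h3
  by_cases za : a ∈ Z
  · exact (k2 a za b hb c hc h1.symm h2.symm h3).imp id Or.inl
  by_cases zb : b ∈ Z
  · exact (k2 b zb a ha c hc h1 h3.symm h2).imp Far.symm Or.inr
  by_cases zc : c ∈ Z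
  · exact Or.inr ((k2 c zc a ha b hb h2 h3 h1).imp Far.symm Far.symm)
  have hy' : (Far D p y ∧ Far D y p) ∨ (Far D q y ∧ Far D y q) :=
    hy.imp (fun h => ⟨h.symm, h⟩) fun h => ⟨h.symm, h⟩
  clear k k2 hy
  simp only [mem_insert_iff, za, zb, zc, or_false] at ha hb hc
  rcases ha with rfl | rfl | rfl <;> rcases hb with rfl | rfl | rfl <;>
    rcases hc with rfl | rfl | rfl <;> tauto

/-- the data of a labelled four-point set `0, b, c, o` -/
structure Dat (Own : Set ℂ → Prop) (D : Set ℝ) (b c o : ℂ) : Prop where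
  fin : D.Finite
  zero : (0 : ℝ) ∈ D
  own : ∀ (t u : ℂ) (P : Set ℂ), ‖u‖ = 1 → t ∈ P → t + u * b ∈ P → t + u * c ∈ P → t + u * o ∈ P →
    Own P
  safe : ∀ Y, NoTri D Y → ∀ y, ¬ Own (insert y Y)
  b0 : b ≠ 0
  c0 : c ≠ 0
  o0 : o ≠ 0
  bc : b ≠ c
  bo : b ≠ o
  co : c ≠ o
  h1 : c ≠ b + o
  h2 : c ≠ 2 * o
  h3 : b ≠ c + o
  h4 : b ≠ 2 * o
  h5 : 2 * b ≠ c + o
  h6 : 2 * c ≠ 3 * b

variable {Own : Set ℂ → Prop} {b c o : ℂ}

/-- the cells that the forcing sequence uses or must watch -/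
def V0 (D : Set ℝ) (b c o : ℂ) : Set ℂ :=
  {0, c, o, c - o, c - b, b - o, b - c, -o} ∪ {v | ¬ Far D v o ∧ ¬ Far D v (c - b)}

theorem V0_fin (H : Dat Own D b c o) : (V0 D b c o).Finite := by
  refine (toFinite _).union ?_
  have e : o ≠ c - b := fun e => H.h1 (by rw [e]; ring)
  refine (H.fin.biUnion fun r _ => H.fin.biUnion fun s _ => circ e r s).subset fun v hv => ?_
  simp only [mem_iUnion]
  exact ⟨_, not_not.1 hv.1, _, not_not.1 hv.2, rfl, rfl⟩

/-- the forcing sequence from a fresh pair -/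
theorem vcf (H : Dat Own D b c o) {t u y : ℂ} {X Z : Set ℂ} (hu : ‖u‖ = 1) (x0 : t ∈ X)
    (xb : t + u * b ∈ X) (hZ : Z.Pairwise (Far D)) (hn : ∀ v ∈ V0 D b c o, t + u * v ∉ insert y Z)
    (hp : ∀ z ∈ Z, Far D z (t + u * o))
    (hq : t + u * (c - b) ∉ X → ∀ z ∈ Z, Far D z (t + u * (c - b))) : W Own 4 X (insert y Z) := by
  have u0 : u ≠ 0 := by rintro rfl; simp at hu
  have hu' : ‖-u‖ = 1 := by simpa using hu
  have inj : ∀ v w : ℂ, v ≠ w → t + u * v ≠ t + u * w := fun v w h e =>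
    h (mul_left_cancel₀ u0 (add_left_cancel e))
  have m : ∀ v ∈ ({0, c, o, c - o, c - b, b - o, b - c, -o} : Set ℂ), t + u * v ∉ insert y Z :=
    fun v hv => hn v (Or.inl hv)
  refine threat (t + u * c) (t + u * o) (m _ (by simp)) (m _ (by simp))
    (H.own t u _ hu (by simp [x0]) (by simp [xb]) (by simp) (by simp))
    (H.safe _ (tri1 hZ y)) fun _ => ?_
  refine threat (t + u * (c - o)) (t + u * (c - b)) ?_ ?_
    (H.own (t + u * c) (-u) _ hu' (by simp) (Or.inl (by ring))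
      (by rw [show t + u * c + -u * c = t by ring]; simp [x0]) (Or.inr (Or.inl (by ring))))
    (H.safe _ ?_) fun hx => ?_
  · exact fun h => h.elim (inj _ _ fun e => H.h2 (by linear_combination e)) (m _ (by simp))
  · exact fun h => h.elim (inj _ _ fun e => H.h1 (by linear_combination e)) (m _ (by simp))
  · rw [insert_comm]
    exact tri1 (hZ.insert_of_symm fun z hz _ => (hp z hz).symm) y
  have hy : Far D y (t + u * o) ∨ Far D y (t + u * (c - b)) := by
    by_contra k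
    rw [not_or] at k
    have e : y = t + u * ((y - t) / u) := by field_simp; ring
    rw [e, far_iff hu, far_iff hu] at k
    exact hn _ (Or.inr k) (Or.inl e.symm)
  refine double (t + u * (b - o)) (t + u * (b - c)) (t + u * (-o)) ?_ ?_ ?_
    (inj _ _ fun e => H.h1 (by linear_combination e))
    (H.own (t + u * b) (-u) _ hu' (by simp [xb])
      (by rw [show t + u * b + -u * b = t by ring]; simp [x0]) (Or.inl (by ring))
      (Or.inr (Or.inl (by ring))))
    (H.own (t + u * (-o)) u _ hu (Or.inl rfl) (Or.inr (Or.inl (by ring)))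
      (Or.inr (Or.inr (Or.inl (by ring))))
      (by rw [show t + u * -o + u * o = t by ring]; simp [x0]))
    (H.safe _ (tri2 hZ hp (hq fun h => hx (Or.inr (Or.inr h))) hy))
  · rintro (h | h | h)
    · exact inj _ _ (fun e => H.h5 (by linear_combination e)) h
    · exact inj _ _ (fun e => H.h4 (by linear_combination e)) h
    · exact m _ (by simp) h
  · rintro (h | h | h)
    · exact inj _ _ (fun e => H.bc (by linear_combination e / 2)) h
    · exact inj _ _ (fun e => H.h3 (by linear_combination e)) h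
    · exact m _ (by simp) h
  · rintro (h | h | h)
    · exact inj _ _ (fun e => H.h3 (by linear_combination e)) h
    · exact inj _ _ (fun e => H.o0 (by linear_combination -e / 2)) h
    · exact m _ (by simp) h

/-- the cells of both orientations of the pair -/
def V (D : Set ℝ) (b c o : ℂ) : Set ℂ := V0 D b c o ∪ (fun v => b - v) '' V0 D b c o

theorem V_fin (H : Dat Own D b c o) : (V D b c o).Finite := (V0_fin H).union ((V0_fin H).image _)

theorem V_0 : (0 : ℂ) ∈ V D b c o := Or.inl (Or.inl (by simp))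

theorem V_b : b ∈ V D b c o := Or.inr ⟨0, Or.inl (by simp), by simp⟩

/-- the forcing sequence when one cell `w` is dangerous -/
theorem vcf2 (H : Dat Own D b c o) {t u y : ℂ} (w : ℂ) {X Z : Set ℂ} (hu : ‖u‖ = 1) (x0 : t ∈ X)
    (xb : t + u * b ∈ X) (hZ : Z.Pairwise (Far D)) (hn : ∀ v ∈ V D b c o, t + u * v ∉ insert y Z)
    (hf : ∀ v ∈ V D b c o, v ≠ 0 → v ≠ w → ∀ z ∈ Z, Far D z (t + u * v)) :
    W Own 4 X (insert y Z) := by
  have mo : o ∈ V0 D b c o := Or.inl (by simp)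
  have mc : c - b ∈ V0 D b c o := Or.inl (by simp)
  by_cases e : o ≠ w ∧ c - b ≠ w
  · exact vcf H hu x0 xb hZ (fun v hv => hn v (Or.inl hv)) (hf _ (Or.inl mo) H.o0 e.1)
      fun _ => hf _ (Or.inl mc) (sub_ne_zero.2 H.bc.symm) e.2
  · have e' : b - o ≠ w ∧ b - (c - b) ≠ w := by
      rw [not_and_or, not_not, not_not] at e
      rcases e with rfl | rfl
      · exact ⟨fun e => H.h4 (by linear_combination e), fun e => H.h5 (by linear_combination e)⟩
      · exact ⟨fun e => H.h5 (by linear_combination e), fun e => H.h6 (by linear_combination -e)⟩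
    have k : ∀ v, t + u * b + -u * v = t + u * (b - v) := fun v => by ring
    refine vcf H (t := t + u * b) (u := -u) (by simpa using hu) xb (by simpa using x0) hZ
      (fun v hv => k v ▸ hn _ (Or.inr ⟨v, hv, rfl⟩))
      (k o ▸ hf _ (Or.inr ⟨o, mo, rfl⟩) (sub_ne_zero.2 H.bo) e'.1) fun hx => ?_
    rw [k] at hx ⊢
    refine hf _ (Or.inr ⟨_, mc, rfl⟩) (fun e => hx ?_) e'.2
    rw [e]
    simpa using x0

/-- the first player wins within eight moves -/
theorem main (H : Dat Own D b c o) : W Own 8 ∅ ∅ := by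
  have ne := @Far.ne D H.zero
  have s0 : ∀ y, ¬ Own (insert y ∅) := H.safe _ fun _ h => h.elim
  refine ⟨0, id, Or.inr fun y1 n1 _ => ⟨s0 _, ?_⟩⟩
  have a1 : y1 ≠ 0 := fun e => n1 (Or.inl e)
  obtain ⟨u1, hu1, g1⟩ := generic H.fin (toFinite ({0, y1} : Set ℂ)) (V_fin H)
  have u10 : u1 ≠ 0 := by rintro rfl; simp at hu1
  have f1 : ∀ v ∈ V D b c o, v ≠ 0 → Far D y1 (u1 * v) := fun v hv e => by
    simpa using g1 y1 (by simp) 0 (by simp) 0 V_0 v hv a1 e.symm
  have d1 : ∀ v ∈ V D b c o, y1 ≠ u1 * v := fun v hv => by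
    by_cases e : v = 0
    · simpa [e] using a1
    · exact ne (f1 v hv e)
  refine ⟨u1 * b, by simpa using (d1 b V_b).symm, Or.inr fun y2 n2 m2 =>
    ⟨H.safe _ (tri1 (pairwise_empty _) _) _, ?_⟩⟩
  have p1 : (insert y1 ∅ : Set ℂ).Pairwise (Far D) := by simp
  by_cases c2 : ∀ v ∈ V D b c o, y2 ≠ u1 * v
  · refine (vcf2 H 0 (t := 0) hu1 (by simp) (by simp) p1 (fun v hv => ?_)
      fun v hv e _ z hz => ?_).le (by norm_num)
    · simpa using ⟨(c2 v hv).symm, (d1 v hv).symm⟩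
    · obtain rfl : z = y1 := by simpa using hz
      simpa using f1 v hv e
  push Not at c2
  obtain ⟨v2, hv2, rfl⟩ := c2
  have v20 : v2 ≠ 0 := by rintro rfl; simp at n2
  have v2b : v2 ≠ b := by rintro rfl; simp at n2
  obtain ⟨u2, hu2, g2⟩ := generic H.fin (((V_fin H).image (u1 * ·)).insert y1) (V_fin H)
  have u20 : u2 ≠ 0 := by rintro rfl; simp at hu2
  -- far from the first reply
  have f2 : ∀ s ∈ V D b c o, ∀ v ∈ V D b c o, v ≠ 0 → Far D y1 (u1 * s + u2 * v) :=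
    fun s hs v hv e => by
      simpa using g2 y1 (Or.inl rfl) _ (Or.inr ⟨s, hs, rfl⟩) 0 V_0 v hv (d1 s hs) e.symm
  have f3 : ∀ s ∈ V D b c o, ∀ v ∈ V D b c o, ∀ s' ∈ V D b c o, ∀ v' ∈ V D b c o, s ≠ s' → v ≠ v' →
      Far D (u1 * s + u2 * v) (u1 * s' + u2 * v') := fun s hs v hv s' hs' v' hv' e e' =>
    g2 _ (Or.inr ⟨s, hs, rfl⟩) _ (Or.inr ⟨s', hs', rfl⟩) v hv v' hv'
      (fun h => e (mul_left_cancel₀ u10 h)) e'
  have d2 : ∀ s ∈ V D b c o, ∀ v ∈ V D b c o, y1 ≠ u1 * s + u2 * v := fun s hs v hv => by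
    by_cases e : v = 0
    · simpa [e] using d1 s hs
    · exact ne (f2 s hs v hv e)
  have d3 : ∀ s ∈ V D b c o, ∀ v ∈ V D b c o, ∀ s' ∈ V D b c o, ∀ v' ∈ V D b c o,
      u1 * s + u2 * v = u1 * s' + u2 * v' → s = s' ∧ v = v' := fun s hs v hv s' hs' v' hv' e => by
    by_cases a : s = s'
    · exact ⟨a, mul_left_cancel₀ u20 (add_left_cancel (a ▸ e))⟩
    · by_cases a' : v = v'
      · exact absurd (mul_left_cancel₀ u10 (add_right_cancel (a' ▸ e))) a
      · exact absurd e (ne (f3 s hs v hv s' hs' v' hv' a a'))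
  have p2 : (insert (u1 * v2) (insert y1 ∅) : Set ℂ).Pairwise (Far D) :=
    p1.insert_of_symm fun z hz _ => by
      obtain rfl : z = y1 := by simpa using hz
      exact (f1 v2 hv2 v20).symm
  have n20 : ∀ v ∈ V D b c o, u2 * v ∉ (insert (u1 * v2) (insert y1 ∅) : Set ℂ) := by
    rintro v hv (h | h | h)
    · exact v20 (d3 v2 hv2 0 V_0 0 V_0 v hv (by simpa using h.symm)).1
    · exact d2 0 V_0 v hv (by simpa using h.symm)
    · exact h
  have f20 : ∀ v ∈ V D b c o, v ≠ 0 → ∀ z ∈ (insert (u1 * v2) (insert y1 ∅) : Set ℂ),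
      Far D z (u2 * v) := by
    rintro v hv e z (rfl | rfl | h)
    · simpa using f3 v2 hv2 0 V_0 0 V_0 v hv v20 e.symm
    · simpa using f2 0 V_0 v hv e
    · exact h.elim
  refine ⟨u2 * b, n20 b V_b, Or.inr fun y3 n3 m3 => ⟨H.safe _ (tri1 p1 _) _, ?_⟩⟩
  by_cases c3 : ∀ v ∈ V D b c o, y3 ≠ u2 * v
  · refine (vcf2 H 0 (t := 0) hu2 (by simp) (by simp) p2 (fun v hv => ?_)
      fun v hv e _ z hz => ?_).le (by norm_num)
    · rw [zero_add]
      exact fun h => h.elim (c3 v hv).symm (n20 v hv)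
    · rw [zero_add]
      exact f20 v hv e z hz
  push Not at c3
  obtain ⟨v3, hv3, rfl⟩ := c3
  have v30 : v3 ≠ 0 := by rintro rfl; simp at n3
  have v3b : v3 ≠ b := by rintro rfl; simp at n3
  have p3 : (insert (u2 * v3) (insert (u1 * v2) (insert y1 ∅)) : Set ℂ).Pairwise (Far D) :=
    p2.insert_of_symm fun z hz _ => (f20 v3 hv3 v30 z hz).symm
  have nA : ∀ v ∈ V D b c o,
      u1 * b + u2 * v ∉ (insert (u2 * v3) (insert (u1 * v2) (insert y1 ∅)) : Set ℂ) := by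
    rintro v hv (h | h | h | h)
    · exact H.b0 (d3 b V_b v hv 0 V_0 v3 hv3 (by simpa using h)).1
    · exact v2b (d3 b V_b v hv v2 hv2 0 V_0 (by simpa using h)).1.symm
    · exact d2 b V_b v hv h.symm
    · exact h
  have nB : ∀ v ∈ V D b c o,
      u2 * b + u1 * v ∉ (insert (u2 * v3) (insert (u1 * v2) (insert y1 ∅)) : Set ℂ) := by
    intro v hv
    rw [add_comm]
    rintro (h | h | h | h)
    · exact v3b (d3 v hv b V_b 0 V_0 v3 hv3 (by simpa using h)).2.symm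
    · exact H.b0 (d3 v hv b V_b v2 hv2 0 V_0 (by simpa using h)).2
    · exact d2 v hv b V_b h.symm
    · exact h
  refine ⟨u1 * b + u2 * b, nA b V_b, Or.inr fun y4 n4 _ => ⟨H.safe _ (tri1 p2 _) _, ?_⟩⟩
  by_cases c4 : ∀ v ∈ V D b c o, y4 ≠ u1 * b + u2 * v
  · refine vcf2 H v3 (t := u1 * b) hu2 (by simp) (by simp) p3
      (fun v hv h => h.elim (c4 v hv).symm (nA v hv)) ?_
    rintro v hv e e' z (rfl | rfl | rfl | h)
    · simpa using f3 0 V_0 v3 hv3 b V_b v hv H.b0.symm e'.symm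
    · simpa using f3 v2 hv2 0 V_0 b V_b v hv v2b e.symm
    · exact f2 b V_b v hv e
    · exact h.elim
  push Not at c4
  obtain ⟨v4, hv4, rfl⟩ := c4
  refine vcf2 H v2 (t := u2 * b) hu1 (by simp) (Or.inl (add_comm _ _)) p3
    (fun v hv h => h.elim (fun h => n4 (Or.inl ?_)) (nB v hv)) ?_
  · rw [add_comm] at h
    rw [← (d3 v hv b V_b b V_b v4 hv4 h).2]
  · rintro v hv e e' z (rfl | rfl | rfl | h) <;> rw [add_comm]
    · simpa using f3 0 V_0 v3 hv3 v hv b V_b e.symm v3b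
    · simpa using f3 v2 hv2 0 V_0 v hv b V_b e'.symm H.b0.symm
    · exact f2 v hv b V_b H.b0
    · exact h.elim

/-- the six conditions on a labelling -/
def Ok (A B C O : ℂ) : Prop := A + C ≠ B + O ∧ A + C ≠ 2 * O ∧ A + B ≠ C + O ∧ A + B ≠ 2 * O ∧
  2 * B ≠ C + O ∧ A + 2 * C ≠ 3 * B

theorem lab1 {P Q R O : ℂ} (h1 : P ≠ O) (h2 : Q ≠ O) (e : R + O = P + Q)
    (k1 : R + P ≠ 2 * O) (k2 : R + Q ≠ 2 * O) : Ok R P Q O ∨ Ok R Q P O := by
  have a : R + Q ≠ P + O := fun h => h2 (by linear_combination (h - e) / 2)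
  have b : R + P ≠ Q + O := fun h => h1 (by linear_combination (h - e) / 2)
  by_contra c
  simp only [Ok, a, b, k1, k2, ne_eq, not_false_eq_true, true_and, not_or, not_and_or,
    not_not] at c
  obtain ⟨c | c, d | d⟩ := c
  · exact h1 (by linear_combination (2 * c + d) / 3)
  · exact h1 (by linear_combination 2 * c + e - d)
  · exact h2 (by linear_combination 2 * d + e - c)
  · exact h2 (by linear_combination (5 * e - 3 * c - 2 * d) / (-5))

theorem lab2 {P Q R O : ℂ} (h1 : P ≠ O) (h3 : P ≠ Q) (e1 : R + Q ≠ P + O)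
    (e2 : R + P ≠ Q + O) (k1 : R + P ≠ 2 * O) (k2 : R + Q ≠ 2 * O)
    (c : ¬ (Ok R P Q O ∨ Ok R Q P O)) :
    (2 * P = Q + O ∧ R + 3 * O = 4 * P) ∨ (2 * Q = P + O ∧ R + 3 * O = 4 * Q) := by
  simp only [Ok, e1, e2, k1, k2, ne_eq, not_false_eq_true, true_and, not_or, not_and_or,
    not_not] at c
  obtain ⟨c | c, d | d⟩ := c
  · exact absurd (by linear_combination (2 * c + d) / 3) h1
  · exact Or.inl ⟨c, by linear_combination d - 3 * c⟩
  · exact Or.inr ⟨d, by linear_combination c - 3 * d⟩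
  · exact absurd (by linear_combination (d - c) / 5) h3

theorem lab3 {P Q R O : ℂ} (h1 : P ≠ O) (h2 : Q ≠ O) (h3 : R ≠ O) (h4 : P ≠ Q) (h5 : Q ≠ R)
    (k1 : P + Q ≠ 2 * O) (k2 : P + R ≠ 2 * O) (k3 : Q + R ≠ 2 * O) :
    (Ok R P Q O ∨ Ok R Q P O) ∨ (Ok P Q R O ∨ Ok P R Q O) ∨ (Ok Q P R O ∨ Ok Q R P O) := by
  by_cases e1 : R + O = P + Q
  · exact Or.inl (lab1 h1 h2 e1 (by rwa [add_comm]) (by rwa [add_comm]))
  by_cases e2 : P + O = Q + R
  · exact Or.inr (Or.inl (lab1 h2 h3 e2 k1 k2))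
  by_cases e3 : Q + O = P + R
  · exact Or.inr (Or.inr (lab1 h1 h3 e3 (by rwa [add_comm]) k3))
  by_contra c
  have a := lab2 (R := R) h1 h4 (fun h => e2 (by linear_combination -h))
    (fun h => e3 (by linear_combination -h)) (by rwa [add_comm]) (by rwa [add_comm])
    fun h => c (Or.inl h)
  have b := lab2 (R := P) h2 h5 (fun h => e3 (by linear_combination -h))
    (fun h => e1 (by linear_combination -h)) k1 k2 fun h => c (Or.inr (Or.inl h))
  obtain ⟨⟨a, a'⟩ | ⟨a, a'⟩, ⟨b, b'⟩ | ⟨b, b'⟩⟩ := And.intro a b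
  · exact h1 (by linear_combination (4 * a - b') / 7)
  · exact h1 (by linear_combination (b' + 4 * a') / (-15))
  · exact h2 (by linear_combination (b' + a) / (-2))
  · exact h2 (by linear_combination (a + b' + 4 * a') / (-14))

theorem extreme {P Q O : ℂ} (h : P ≠ Q) (h1 : ‖P‖ ≤ ‖O‖) (h2 : ‖Q‖ ≤ ‖O‖) : P + Q ≠ 2 * O := by
  intro e
  have a := parallelogram_law_with_norm ℝ P Q
  rw [e, norm_mul] at a
  have b : 0 < ‖P - Q‖ := norm_pos_iff.2 (sub_ne_zero.2 h)
  have c : ‖(2 : ℂ)‖ = 2 := by simp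
  rw [c] at a
  nlinarith [norm_nonneg P, norm_nonneg Q, norm_nonneg O, mul_self_le_mul_self (norm_nonneg P) h1,
    mul_self_le_mul_self (norm_nonneg Q) h2, mul_pos b b]

theorem label {g : Fin 4 → ℂ} (hg : Function.Injective g) : ∃ i j k l : Fin 4,
    (i ≠ j ∧ i ≠ k ∧ i ≠ l ∧ j ≠ k ∧ j ≠ l ∧ k ≠ l) ∧ Ok (g i) (g j) (g k) (g l) := by
  obtain ⟨l, hl⟩ := Finite.exists_max fun i => ‖g i‖
  obtain ⟨p, q, r, a1, a2, a3, a4, a5, a6⟩ := (by decide : ∀ l : Fin 4, ∃ p q r : Fin 4,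
    p ≠ l ∧ q ≠ l ∧ r ≠ l ∧ p ≠ q ∧ q ≠ r ∧ p ≠ r) l
  rcases lab3 (hg.ne a1) (hg.ne a2) (hg.ne a3) (hg.ne a4) (hg.ne a5)
    (extreme (hg.ne a4) (hl p) (hl q)) (extreme (hg.ne a6) (hl p) (hl r))
    (extreme (hg.ne a5) (hl q) (hl r)) with (h | h) | (h | h) | (h | h)
  · exact ⟨_, _, _, _, ⟨a6.symm, a5.symm, a3, a4, a1, a2⟩, h⟩
  · exact ⟨_, _, _, _, ⟨a5.symm, a6.symm, a3, a4.symm, a2, a1⟩, h⟩
  · exact ⟨_, _, _, _, ⟨a4, a6, a1, a5, a2, a3⟩, h⟩
  · exact ⟨_, _, _, _, ⟨a6, a4, a1, a5.symm, a3, a2⟩, h⟩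
  · exact ⟨_, _, _, _, ⟨a4.symm, a5, a2, a6, a1, a3⟩, h⟩
  · exact ⟨_, _, _, _, ⟨a5, a4.symm, a2, a6.symm, a3, a1⟩, h⟩

/-- `P` contains a congruent copy of the family `g` -/
def Has {X : Type} [Dist X] (g : Fin 4 → X) (P : Set X) : Prop :=
  ∃ e : Fin 4 → X, (∀ a b, dist (e a) (e b) = dist (g a) (g b)) ∧ ∀ a, e a ∈ P

theorem win_c {g : Fin 4 → ℂ} (hg : Function.Injective g) : W (Has g) 8 ∅ ∅ := by
  obtain ⟨i, j, k, l, ⟨a1, a2, a3, a4, a5, a6⟩, h1, h2, h3, h4, h5, h6⟩ := label hg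
  refine main (D := range fun p : Fin 4 × Fin 4 => dist (g p.1) (g p.2)) (b := g j - g i)
    (c := g k - g i) (o := g l - g i) ⟨finite_range _, ⟨(0, 0), by simp⟩, ?_, ?_,
    sub_ne_zero.2 (hg.ne a1.symm), sub_ne_zero.2 (hg.ne a2.symm), sub_ne_zero.2 (hg.ne a3.symm),
    fun e => a4 (hg (by linear_combination e)), fun e => a5 (hg (by linear_combination e)),
    fun e => a6 (hg (by linear_combination e)), fun e => h1 (by linear_combination e),
    fun e => h2 (by linear_combination e), fun e => h3 (by linear_combination e),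
    fun e => h4 (by linear_combination e), fun e => h5 (by linear_combination e),
    fun e => h6 (by linear_combination e)⟩
  · intro t u P hu p0 pb pc po
    refine ⟨fun a => t + u * (g a - g i), fun a b => ?_, fun a => ?_⟩
    · rw [dist_add_left, dist_eq_norm, dist_eq_norm, ← mul_sub, norm_mul, hu, one_mul]
      congr 1
      ring
    · rcases (by decide : ∀ i j k l a : Fin 4, i ≠ j → i ≠ k → i ≠ l → j ≠ k → j ≠ l → k ≠ l →
        a = i ∨ a = j ∨ a = k ∨ a = l) i j k l a a1 a2 a3 a4 a5 a6 with rfl | rfl | rfl | rfl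
      exacts [by simpa using p0, pb, pc, po]
  · rintro Y hY y ⟨e, he, hm⟩
    have inj : ∀ a b, a ≠ b → e a ≠ e b := fun a b h x =>
      h (hg (dist_eq_zero.1 (by rw [← he, x, dist_self])))
    have key : ∀ a b c : Fin 4, a ≠ b → a ≠ c → b ≠ c → e a ≠ y → e b ≠ y → e c ≠ y → False := by
      intro a b c x1 x2 x3 y1 y2 y3
      rcases hY _ ((hm a).resolve_left y1) _ ((hm b).resolve_left y2) _ ((hm c).resolve_left y3)
        (inj _ _ x1) (inj _ _ x2) (inj _ _ x3) with h | h | h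
      exacts [h ⟨(a, b), (he a b).symm⟩, h ⟨(a, c), (he a c).symm⟩, h ⟨(b, c), (he b c).symm⟩]
    by_cases z : ∃ a, e a = y
    · obtain ⟨a, rfl⟩ := z
      obtain ⟨p, q, r, b1, b2, b3, b4, b5, b6⟩ := (by decide : ∀ l : Fin 4, ∃ p q r : Fin 4,
        p ≠ l ∧ q ≠ l ∧ r ≠ l ∧ p ≠ q ∧ q ≠ r ∧ p ≠ r) a
      exact key p q r b4 b6 b5 (inj _ _ b1) (inj _ _ b2) (inj _ _ b3)
    · exact key 0 1 2 (by decide) (by decide) (by decide) (fun h => z ⟨_, h⟩) (fun h => z ⟨_, h⟩)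
        fun h => z ⟨_, h⟩

theorem win_e {g : Fin 4 → EuclideanSpace ℝ (Fin 2)} (hg : Function.Injective g) :
    Win (Has g) 8 ∅ ∅ := by
  let f := Complex.orthonormalBasisOneI.repr
  have h := win_c (g := fun a => f.symm (g a)) (f.symm.injective.comp hg)
  have e : Has (fun a => f.symm (g a)) = fun P => Has g (f.toEquiv '' P) := by
    ext P
    constructor
    · rintro ⟨e, h1, h2⟩
      exact ⟨fun a => f (e a), fun a b => by rw [f.dist_map, h1, f.symm.dist_map],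
        fun a => ⟨_, h2 a, rfl⟩⟩
    · rintro ⟨e, h1, h2⟩
      refine ⟨fun a => f.symm (e a), fun a b => by rw [f.symm.dist_map, h1, f.symm.dist_map],
        fun a => ?_⟩
      obtain ⟨x, hx, k⟩ := h2 a
      show f.symm (e a) ∈ P
      rw [← k]
      simpa using hx
  rw [e] at h
  have := W.map f.toEquiv 8 ∅ ∅ h
  rw [image_empty] at this
  exact W.win (fun P Q hP ⟨e, h1, h2⟩ => ⟨e, h1, fun a => hP (h2 a)⟩) 8 ∅ ∅ ∅ subset_rfl
    finite_empty finite_empty this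

end Pool.Agent.MP_32430d_co.Four
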