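import Pool.Agent.MP_32430d_co.Defs
import Mathlib.NumberTheory.Real.Irrational
import Mathlib.Analysis.Real.Cardinality
import Mathlib.Algebra.Polynomial.Roots

/-! Game trees in a generic rotation of the lattice of twelfth roots of unity. -/

open Set

namespace Pool.Agent.MP_32430d_co

abbrev Pl := EuclideanSpace ℝ (Fin 2)

/-- the player to move, who owns `A`, wins within `n` moves -/
def Win (F : Set (Finset (Fin 3 × Fin 3))) : ℕ → Set Pl → Set Pl → Prop
  | 0, _, _ => False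
  | n + 1, A, B => ∃ m, m ∉ A ∧ m ∉ B ∧ (Owns F (insert m A) ∨ ∀ y, y ∉ insert m A → y ∉ B →
      ¬ Owns F (insert y B) ∧ Win F n (insert m A) (insert y B))

variable {F : Set (Finset (Fin 3 × Fin 3))}

theorem firstWins {N : ℕ} (h0 : ¬ Owns F ∅) (h : Win F N ∅ ∅) : FirstWins F N := by
  classical
  have key : ∀ l : List Pl, ∃ m, m ∉ l ∧ ∀ n A B, N - l.length / 2 = n + 1 →
      A = {p | ∃ i, l[2 * i]? = some p} → B = {p | ∃ i, l[2 * i + 1]? = some p} →
      Win F (n + 1) A B → Owns F (insert m A) ∨ ∀ y, y ∉ insert m A → y ∉ B →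
      ¬ Owns F (insert y B) ∧ Win F n (insert m A) (insert y B) := fun l => by
    by_cases c : ∃ n, N - l.length / 2 = n + 1 ∧
        Win F (n + 1) {p | ∃ i, l[2 * i]? = some p} {p | ∃ i, l[2 * i + 1]? = some p}
    · obtain ⟨n, e, m, h1, h2, h3⟩ := c
      refine ⟨m, fun c => ?_, fun n' A B e' hA hB _ => ?_⟩
      · obtain ⟨j, hj⟩ := List.mem_iff_getElem?.1 c
        rcases Nat.even_or_odd' j with ⟨i, rfl | rfl⟩
        exacts [h1 ⟨i, hj⟩, h2 ⟨i, hj⟩]
      · obtain rfl : n' = n := by omega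
        exact hA ▸ hB ▸ h3
    · obtain ⟨m, hm⟩ := Infinite.exists_notMem_finset l.toFinset
      exact ⟨m, by simpa using hm, fun n A B e hA hB w => absurd ⟨n, e, hA ▸ hB ▸ w⟩ c⟩
  choose σ h1 h2 using key
  refine ⟨σ, fun x hx hy => ?_⟩
  have new : ∀ k j, j < 2 * k → x (2 * k) ≠ x j := fun k j hj c =>
    h1 (List.ofFn fun i : Fin (2 * k) => x i) (List.mem_ofFn.2 ⟨⟨j, hj⟩, c.symm.trans (hx k)⟩)
  refine ⟨new, ?_⟩
  have ins : ∀ (f : ℕ → ℕ) (k : ℕ), {p | ∃ i < k + 1, p = x (f i)} =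
      insert (x (f k)) {p | ∃ i < k, p = x (f i)} := fun f k => by
    ext p
    simp only [mem_ofPred_eq, mem_insert_iff, Nat.lt_succ_iff_lt_or_eq]
    exact ⟨fun ⟨i, a, b⟩ => a.elim (fun a => Or.inr ⟨i, a, b⟩) fun a => Or.inl (a ▸ b),
      fun a => a.elim (fun a => ⟨k, Or.inr rfl, a⟩) fun ⟨i, a, b⟩ => ⟨i, Or.inl a, b⟩⟩
  by_contra c
  have : ∀ k ≤ N, Win F (N - k) {p | ∃ i < k, p = x (2 * i)} {p | ∃ i < k, p = x (2 * i + 1)} ∧
      ¬ Owns F {p | ∃ i < k, p = x (2 * i + 1)} := by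
    intro k
    induction k with
    | zero => exact fun _ => by simpa using And.intro h h0
    | succ k ih =>
      intro hk
      obtain ⟨w, n⟩ := ih (by omega)
      rw [show N - k = N - (k + 1) + 1 by omega] at w
      have := h2 (List.ofFn fun i : Fin (2 * k) => x i) _ _ _ (by simp; omega)
        (by ext p; simp [List.getElem?_ofFn, eq_comm])
        (by ext p; simp only [List.getElem?_ofFn, mem_ofPred_eq]
            refine exists_congr fun i => ?_
            by_cases c : i < k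
            · simp [c, show 2 * i + 1 < 2 * k by omega, eq_comm]
            · simp [c, show ¬ 2 * i + 1 < 2 * k by omega]) w
      rw [← hx k, ← ins (2 * ·)] at this
      rw [ins (2 * · + 1)]
      refine (this.resolve_left (fun o => c ⟨k, hk, by simpa [Nat.lt_succ_iff] using o, n⟩) _ ?_ ?_).symm
      · rintro ⟨i, a, b⟩
        exact hy k _ (by omega) b
      · rintro ⟨i, a, b⟩
        exact hy k _ (by omega) b
  simpa [Win] using (this N le_rfl).1

/-- the squared distance of the lattice points with digit codes `p`, `q` is the integer `d` -/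
def nrm (p q d : ℕ) : Bool :=
  let a := p % 9; let b := p / 9 % 9; let c := p / 81 % 9; let e := p / 729
  let a' := q % 9; let b' := q / 9 % 9; let c' := q / 81 % 9; let e' := q / 729
  Nat.beq (a * b + b * c + c * e + a' * b' + b' * c' + c' * e')
    (a * b' + a' * b + b * c' + b' * c + c * e' + c' * e) &&
  Nat.beq (a * a + b * b + c * c + e * e + a * c + b * e + a' * a' + b' * b' + c' * c' + e' * e' +
    a' * c' + b' * e') (d + 2 * (a * a' + b * b' + c * c' + e * e') + a * c' + a' * c + b * e' + b' * e)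

/-- squared distance of two grid points given by codes -/
def dsq (g h : ℕ) : ℕ :=
  (g / 3 - h / 3 + (h / 3 - g / 3)) ^ 2 + (g % 3 - h % 3 + (h % 3 - g % 3)) ^ 2

/-- the code of a grid point -/
def code (a : Fin 3 × Fin 3) : ℕ := 3 * a.1 + a.2

/-- `r` points of `B` can be matched with grid points, extending `M` -/
def can (G : List ℕ) : List ℕ → List (ℕ × ℕ) → ℕ → Bool
  | _, _, 0 => true
  | [], _, _ + 1 => false
  | b :: B, M, r + 1 => Nat.ble r B.length && (can G B M (r + 1) ||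
      G.any fun g => M.all (fun z => nrm b z.1 (dsq g z.2)) && can G B ((b, g) :: M) r)

/-- the opponent cannot finish with his next move -/
def safe (G : List ℕ) (S : ℕ) (B : List ℕ) (w : ℕ) : Bool :=
  Nat.ble (w + 3) S && !can G B [] (S - 1 - w)

/-- the points `A` contain `S` points of the copy coded by `L` -/
def fin (G : List ℕ) (S : ℕ) (A : List ℕ) (L : ℕ) : Bool :=
  let o := G.filter fun g => A.elem (L / 8192 ^ g % 8192)
  Nat.ble S o.length && o.all fun g => o.all fun h =>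
    Nat.ble g h || nrm (L / 8192 ^ g % 8192) (L / 8192 ^ h % 8192) (dsq g h)

/-- lists of replies (`b = 0`: any point outside the zone) with the answers to them -/
inductive Tr
  | nil
  | leaf (b m L : ℕ) (r : Tr)
  | node (b m : ℕ) (s r : Tr)

/-- the empty list -/
def Tr.isNil : Tr → Bool
  | .nil => true
  | _ => false

/-- bookkeeping of zones -/
def comb (b Z : ℕ) (e : Bool) : Option (ℕ × ℕ) → Option (ℕ × ℕ)
  | none => none
  | some (U, I) => bif Nat.beq b 0 then some (Z ||| U, bif e then Z else Z &&& I) else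
      bif e then none else some (Z ||| U, I ^^^ (I &&& 2 ^ b))

/-- the checker: the zone and the set of replies not yet covered -/
def go (G : List ℕ) (S : ℕ) : Tr → ℕ → List ℕ → List ℕ → ℕ → Option (ℕ × ℕ)
  | .nil, _, _, _, _ => some (0, 0)
  | _, 0, _, _, _ => none
  | .leaf b m L r, n + 1, A, B, w =>
      bif !A.elem m && !(b :: B).elem m && fin G S (m :: A) L then
        comb b (2 ^ m) r.isNil (go G S r (n + 1) A B w) else none
  | .node b m s r, n + 1, A, B, w =>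
      bif !A.elem m && !(b :: B).elem m && !s.isNil &&
          safe G S (bif Nat.beq b 0 then B else b :: B) (bif Nat.beq b 0 then w + 1 else w) then
        match go G S s n (m :: A) (bif Nat.beq b 0 then B else b :: B)
          (bif Nat.beq b 0 then w + 1 else w) with
        | some (U, 0) => comb b (2 ^ m ||| U) r.isNil (go G S r (n + 1) A B w)
        | _ => none
      else none

/-- the second move `m` and the tree after it -/
def root (G : List ℕ) (S n m : ℕ) (s : Tr) : Bool :=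
  !Nat.beq m 3280 && !s.isNil && safe G S [] 0 &&
    match go G S s n [m, 3280] [] 0 with
    | some (_, 0) => true
    | _ => false

/-- an embedding of the lattice, generic with respect to `z` -/
structure Emb (ι : ℕ → Pl) (z : Pl) : Prop where
  d : ∀ p q d : ℕ, nrm p q d = true ↔ dist (ι p) (ι q) ^ 2 = d
  inj : Function.Injective ι
  gen : ∀ p ≠ 3280, ∀ d : ℕ, dist z (ι p) ^ 2 ≠ d

/-- the family consists of the sets of `S` points of `G` -/
structure Fam (F : Set (Finset (Fin 3 × Fin 3))) (G : List ℕ) (S : ℕ) : Prop where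
  ex : ∀ o : List ℕ, o.Sublist G → S ≤ o.length → ∃ T ∈ F, ∀ a ∈ T, code a ∈ o
  all : ∀ T ∈ F, S ≤ T.card ∧ ∀ a ∈ T, code a ∈ G

theorem gd (a b : Fin 3 × Fin 3) : (((a.1 : ℕ) : ℝ) - ((b.1 : ℕ) : ℝ)) ^ 2 +
    (((a.2 : ℕ) : ℝ) - ((b.2 : ℕ) : ℝ)) ^ 2 = dsq (code a) (code b) := by
  have : ∀ a b : Fin 3 × Fin 3, (((a.1 : ℕ) : ℤ) - ((b.1 : ℕ) : ℤ)) ^ 2 +
    (((a.2 : ℕ) : ℤ) - ((b.2 : ℕ) : ℤ)) ^ 2 = dsq (code a) (code b) := by decide
  exact_mod_cast this a b

theorem dsq_zero : ∀ a b : Fin 3 × Fin 3, dsq (code a) (code b) = 0 → a = b := by decide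

variable {ι : ℕ → Pl} {z : Pl} {G : List ℕ} {S : ℕ}

theorem fin_ok (E : Emb ι z) (hF : Fam F G S) {A : List ℕ} {L : ℕ} (h : fin G S A L = true) :
    Owns F (ι '' {p | p ∈ A}) := by
  simp only [fin, Bool.and_eq_true, Nat.ble_eq, List.all_eq_true, Bool.or_eq_true] at h
  obtain ⟨T, hT, h1⟩ := hF.ex _ List.filter_sublist h.1
  refine ⟨T, hT, fun a => ι (L / 8192 ^ code a % 8192), fun a ha b hb => ?_, fun a ha =>
    ⟨_, by simpa using (List.mem_filter.1 (h1 a ha)).2, rfl⟩⟩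
  rw [gd, eq_comm, Real.sqrt_eq_iff_eq_sq (by positivity) dist_nonneg, eq_comm]
  rcases lt_trichotomy (code a) (code b) with c | c | c
  · rw [dist_comm, (E.d _ _ _).1 ((h.2 _ (h1 b hb) _ (h1 a ha)).resolve_left (by omega))]
    simp [dsq, add_comm]
  · simp [c, dsq]
  · exact (E.d _ _ _).1 ((h.2 _ (h1 a ha) _ (h1 b hb)).resolve_left (by omega))

theorem can_ok (E : Emb ι z) {T : Finset (Fin 3 × Fin 3)} {e : Fin 3 × Fin 3 → Pl}
    (he : ∀ a ∈ T, ∀ b ∈ T, dist (e a) (e b) ^ 2 = dsq (code a) (code b))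
    (hi : InjOn e T) (hG : ∀ a ∈ T, code a ∈ G) : ∀ (B : List ℕ) (M : List (ℕ × ℕ)) (r : ℕ)
    (s : Finset (Fin 3 × Fin 3)), s ⊆ T → r ≤ s.card → (∀ a ∈ s, ∃ b ∈ B, e a = ι b) →
    (∀ y ∈ M, ∃ a ∈ T, code a = y.2 ∧ e a = ι y.1) → can G B M r = true
  | B, _, 0, _, _, _, _, _ => by cases B <;> rfl
  | [], _, r + 1, s, _, h2, h3, _ => by
    obtain ⟨a, ha⟩ := Finset.card_pos.1 (show 0 < s.card by omega)
    simpa using h3 a ha
  | b :: B, M, r + 1, s, h1, h2, h3, h4 => by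
    classical
    have : s.card ≤ ((b :: B).map ι).toFinset.card := Finset.card_le_card_of_injOn e
      (fun a ha => let ⟨c, h, h'⟩ := h3 a ha; by
        simp only [List.coe_toFinset, mem_ofPred_eq]; exact List.mem_map.2 ⟨c, h, h'.symm⟩)
      (hi.mono h1)
    have := this.trans (List.toFinset_card_le _)
    simp only [can, Bool.and_eq_true, Nat.ble_eq, Bool.or_eq_true, List.any_eq_true, List.all_eq_true]
    refine ⟨by simp at this; omega, ?_⟩
    by_cases c : ∃ a ∈ s, e a = ι b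
    · obtain ⟨a, ha, c⟩ := c
      refine Or.inr ⟨code a, hG a (h1 ha), fun y hy => ?_, can_ok E he hi hG B _ r (s.erase a)
        ((s.erase_subset a).trans h1) (by rw [Finset.card_erase_of_mem ha]; omega)
        (fun a' ha' => ?_) fun y hy => ?_⟩
      · obtain ⟨a', k1, k2, k3⟩ := h4 y hy
        rw [E.d, ← c, ← k3, ← k2]
        exact he a (h1 ha) a' k1
      · obtain ⟨k1, k2⟩ := Finset.mem_erase.1 ha'
        obtain ⟨b', k3, k4⟩ := h3 a' k2
        exact ⟨b', (List.mem_cons.1 k3).resolve_left fun k =>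
          k1 (hi (h1 k2) (h1 ha) (by rw [k4, k, c])), k4⟩
      · rcases List.mem_cons.1 hy with rfl | hy
        exacts [⟨a, h1 ha, rfl, c⟩, h4 y hy]
    · exact Or.inl (can_ok E he hi hG B M (r + 1) s h1 h2 (fun a ha =>
        let ⟨b', k3, k4⟩ := h3 a ha
        ⟨b', (List.mem_cons.1 k3).resolve_left fun k => c ⟨a, ha, k ▸ k4⟩, k4⟩) h4)

/-- the points of the opponent -/
def pos (ι : ℕ → Pl) (z : Pl) (B : List ℕ) (W : Finset Pl) : Set Pl := ι '' {p | p ∈ B} ∪ W ∪ {z}

theorem safe_ok (E : Emb ι z) (hF : Fam F G S) {B : List ℕ} {w : ℕ} (h : safe G S B w = true)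
    (hB : 3280 ∉ B) {W : Finset Pl} (hW : W.card ≤ w) (y : Pl) :
    ¬ Owns F (insert y (pos ι z B W)) := by
  classical
  rintro ⟨T, hT, e, h1, h2⟩
  simp only [safe, Bool.and_eq_true, Nat.ble_eq, Bool.not_eq_true'] at h
  have he : ∀ a ∈ T, ∀ b ∈ T, dist (e a) (e b) ^ 2 = dsq (code a) (code b) := fun a ha b hb => by
    rw [h1 a ha b hb, gd, Real.sq_sqrt (by positivity)]
  have hi : InjOn e T := fun a ha b hb c => dsq_zero a b (by
    have := he a ha b hb
    rw [c, dist_self] at this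
    exact_mod_cast this.symm.trans (zero_pow two_ne_zero))
  obtain ⟨k1, k2⟩ := hF.all T hT
  have k3 := T.card_filter_add_card_filter_not fun a => ∃ b ∈ B, e a = ι b
  have k4 : ∀ V : Finset Pl, (∀ a ∈ T, (¬ ∃ b ∈ B, e a = ι b) → e a ∈ V) →
      (T.filter fun a => ¬ ∃ b ∈ B, e a = ι b).card ≤ V.card := fun V hV =>
    Finset.card_le_card_of_injOn e (fun a ha => hV a (Finset.mem_filter.1 ha).1 (Finset.mem_filter.1 ha).2)
      (hi.mono (Finset.coe_subset.2 (T.filter_subset _)))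
  have k5 : ∀ a ∈ T, (¬ ∃ b ∈ B, e a = ι b) → e a = z ∨ e a ∈ insert y W := fun a ha c => by
    rcases h2 a ha with k | (⟨b, k, k'⟩ | k) | k
    exacts [Or.inr (by simp [k]), absurd ⟨b, k, k'.symm⟩ c, Or.inr (by simp [show e a ∈ W from k]),
      Or.inl k]
  have k6 := W.card_insert_le y
  by_cases c : ∃ a ∈ T, e a = z
  · obtain ⟨a, ha, c⟩ := c
    have := k4 (insert z (insert y W)) fun a ha c => Finset.mem_insert.2 (k5 a ha c)
    have := (insert y W).card_insert_le z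
    obtain ⟨a', ha'⟩ := Finset.card_pos.1 (show 0 < (T.filter fun a => ∃ b ∈ B, e a = ι b).card by omega)
    obtain ⟨l1, b, l2, l3⟩ := Finset.mem_filter.1 ha'
    exact E.gen b (fun c => hB (c ▸ l2)) _ (c ▸ l3 ▸ he a ha a' l1)
  · have := k4 _ fun a ha c' => (k5 a ha c').resolve_left fun c' => c ⟨a, ha, c'⟩
    have := can_ok E he hi k2 B [] (S - 1 - w) _ (T.filter_subset fun a => ∃ b ∈ B, e a = ι b)
      (by omega) (fun a ha => (Finset.mem_filter.1 ha).2) (by simp)
    simp [h.2] at this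

/-- all replies outside `I` lose -/
def Rep (F : Set (Finset (Fin 3 × Fin 3))) (ι : ℕ → Pl) (z : Pl) (n : ℕ) (A B : List ℕ)
    (w U I : ℕ) : Prop :=
  ∀ W : Finset Pl, W.card ≤ w → (∀ p, U.testBit p → ι p ∉ W) → ∀ y ∉ ι '' {p | p ∈ A},
    (∀ p, I.testBit p → y ≠ ι p) → Win F n (ι '' {p | p ∈ A}) (insert y (pos ι z B W))

/-- the player to move wins -/
def Ans (F : Set (Finset (Fin 3 × Fin 3))) (ι : ℕ → Pl) (z : Pl) (n : ℕ) (A B : List ℕ)
    (w Z : ℕ) : Prop :=
  ∀ W : Finset Pl, W.card ≤ w → (∀ p, Z.testBit p → ι p ∉ W) →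
    Win F n (ι '' {p | p ∈ A}) (pos ι z B W)

theorem comb_ok (E : Emb ι z) {n b Z w U I : ℕ} {A B : List ℕ} {e : Bool} {o : Option (ℕ × ℕ)}
    (hA : 3280 ∈ A) (h : comb b Z e o = some (U, I))
    (h1 : b ≠ 3280 → Ans F ι z n A (bif Nat.beq b 0 then B else b :: B)
      (bif Nat.beq b 0 then w + 1 else w) Z)
    (h2 : ∀ U I, o = some (U, I) → e = false → Rep F ι z n A B w U I) : Rep F ι z n A B w U I := by
  classical
  obtain _ | ⟨U', I'⟩ := o
  · simp [comb] at h
  intro W hW k1 y k2 k3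
  rcases b with _ | b
  · obtain ⟨rfl, rfl⟩ : Z ||| U' = U ∧ (bif e then Z else Z &&& I') = I := by simpa [comb] using h
    simp only [Nat.testBit_or, Bool.or_eq_true] at k1
    by_cases c : ∀ p, Z.testBit p → y ≠ ι p
    · convert h1 (by omega) (insert y W) ((W.card_insert_le y).trans (by simpa using hW))
        fun p hp => by simp [(c p hp).symm, k1 p (Or.inl hp)] using 1
      ext x
      simp [pos, or_left_comm]
    · push Not at c
      obtain ⟨p, hp, rfl⟩ := c
      cases e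
      · exact h2 _ _ rfl rfl W hW (fun p hp => k1 p (Or.inr hp)) _ k2 fun q hq c =>
          k3 q (by simp [← E.inj c, hp, (E.inj c).symm ▸ hq]) c
      · exact absurd rfl (k3 p hp)
  · obtain ⟨rfl, rfl, rfl⟩ : e = false ∧ Z ||| U' = U ∧ I' ^^^ (I' &&& 2 ^ (b + 1)) = I := by
      cases e <;> simp_all [comb, Nat.beq]
    simp only [Nat.testBit_or, Bool.or_eq_true] at k1
    by_cases c : y = ι (b + 1)
    · convert h1 (fun c' => k2 ⟨_, hA, by rw [c, c']⟩) W hW fun p hp => k1 p (Or.inl hp) using 1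
      ext x
      simp [pos, c, Nat.beq, image_insert_eq, show {p | p = b + 1 ∨ p ∈ B} = insert (b + 1) {p | p ∈ B}
        from rfl, or_assoc, or_left_comm]
    · exact h2 _ _ rfl rfl W hW (fun p hp => k1 p (Or.inr hp)) _ k2 fun q hq c' =>
        k3 q (by simp [hq, show b + 1 ≠ q from fun k => c (k ▸ c')]) c'

theorem fresh (E : Emb ι z) {m : ℕ} {A B : List ℕ} {W : Finset Pl} (hA : 3280 ∈ A) (h1 : m ∉ A)
    (h2 : m ∉ B) (h3 : ι m ∉ W) : ι m ∉ ι '' {p | p ∈ A} ∧ ι m ∉ pos ι z B W :=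
  ⟨fun ⟨_, a, b⟩ => h1 (E.inj b ▸ a), fun c => c.elim (fun c => c.elim
    (fun ⟨_, a, b⟩ => h2 (E.inj b ▸ a)) h3) fun c =>
      E.gen m (fun k => h1 (k ▸ hA)) 0 (by simp [← show ι m = z from c])⟩

theorem ins (ι : ℕ → Pl) (m : ℕ) (A : List ℕ) :
    insert (ι m) (ι '' {p | p ∈ A}) = ι '' {p | p ∈ m :: A} := by
  rw [← image_insert_eq]
  congr 1
  ext
  simp

theorem step (E : Emb ι z) (hF : Fam F G S) {n m w U : ℕ} {A B : List ℕ} (hA : 3280 ∈ A)
    (hB : 3280 ∉ B) (h1 : m ∉ A) (h2 : m ∉ B) (h3 : safe G S B w = true)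
    (h : Rep F ι z n (m :: A) B w U 0) : Ans F ι z (n + 1) A B w (2 ^ m ||| U) := fun W hW k =>
  have := fresh E hA h1 h2 (k m (by simp))
  ⟨_, this.1, this.2, Or.inr fun y a _ => ⟨safe_ok E hF h3 hB hW y, by
    rw [ins] at a ⊢
    exact h W hW (fun p hp => k p (by simp [hp])) y a (by simp)⟩⟩

theorem go_ok (E : Emb ι z) (hF : Fam F G S) : ∀ (t : Tr) (n : ℕ) (A B : List ℕ) (w U I : ℕ),
    3280 ∈ A → 3280 ∉ B → go G S t n A B w = some (U, I) → t.isNil = false →
    Rep F ι z n A B w U I := by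
  have sub : ∀ {b m : ℕ} {B : List ℕ}, m ∉ b :: B → m ∉ bif Nat.beq b 0 then B else b :: B :=
    fun {b m B} h => by cases Nat.beq b 0; exacts [h, fun c => h (List.mem_cons_of_mem _ c)]
  intro t
  induction t with
  | nil => exact fun _ _ _ _ _ _ _ _ _ h => nomatch h
  | leaf b m L r ih =>
    rintro (_ | n) A B w U I hA hB h -
    · exact nomatch h
    rw [go, Bool.cond_eq_ite] at h
    split_ifs at h with c
    simp only [Bool.and_eq_true, Bool.not_eq_true', List.elem_eq_mem, decide_eq_false_iff_not] at c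
    refine comb_ok E hA h (fun _ W _ k => ?_) fun U I => ih _ _ _ _ U I hA hB
    have := fresh E hA c.1.1 (sub c.1.2) (k m (by simp))
    exact ⟨_, this.1, this.2, Or.inl (ins ι m A ▸ fin_ok E hF c.2)⟩
  | node b m s r ih' ih =>
    rintro (_ | n) A B w U I hA hB h -
    · exact nomatch h
    rw [go, Bool.cond_eq_ite] at h
    split_ifs at h with c
    simp only [Bool.and_eq_true, Bool.not_eq_true', List.elem_eq_mem, decide_eq_false_iff_not] at c
    split at h
    · rename_i U' k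
      refine comb_ok E hA h (fun hb => ?_) fun U I => ih _ _ _ _ U I hA hB
      have := sub (b := b) fun c => (List.mem_cons.1 c).elim hb.symm hB
      exact step E hF hA this c.1.1.1 (sub c.1.1.2) c.2
        (ih' _ _ _ _ _ _ (List.mem_cons_of_mem _ hA) this k c.1.2)
    · exact nomatch h

/-- first coordinate of a lattice point -/
noncomputable def cu (p : ℕ) : ℝ :=
  ((p % 9 : ℕ) - 4) + ((p / 81 % 9 : ℕ) - 4) / 2 + ((p / 9 % 9 : ℕ) - 4) * √3 / 2

/-- second coordinate of a lattice point -/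
noncomputable def cv (p : ℕ) : ℝ :=
  ((p / 729 : ℕ) - 4) + ((p / 9 % 9 : ℕ) - 4) / 2 + ((p / 81 % 9 : ℕ) - 4) * √3 / 2

theorem nrm_iff (p q d : ℕ) : nrm p q d = true ↔ (cu p - cu q) ^ 2 + (cv p - cv q) ^ 2 = d := by
  simp only [nrm, cu, cv, Bool.and_eq_true, Nat.beq_eq]
  generalize p % 9 = a, p / 9 % 9 = b, p / 81 % 9 = c, p / 729 = e, q % 9 = a', q / 9 % 9 = b',
    q / 81 % 9 = c', q / 729 = e'
  have r : √3 ^ 2 = (3 : ℝ) := Real.sq_sqrt (by norm_num)
  constructor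
  · rintro ⟨h1, h2⟩
    have h1 := congrArg (Nat.cast : ℕ → ℝ) h1
    have h2 := congrArg (Nat.cast : ℕ → ℝ) h2
    push_cast at h1 h2
    linear_combination h2 + √3 * h1 + (((b : ℝ) - b') ^ 2 + ((c : ℝ) - c') ^ 2) / 4 * r
  · intro h
    have k : √3 * (((a - a') * (b - b') + (b - b') * (c - c') + (c - c') * (e - e') : ℤ) : ℝ) =
        ((d - ((a - a') ^ 2 + (b - b') ^ 2 + (c - c') ^ 2 + (e - e') ^ 2 + (a - a') * (c - c') +
          (b - b') * (e - e')) : ℤ) : ℝ) := by
      push_cast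
      linear_combination h - (((b : ℝ) - b') ^ 2 + ((c : ℝ) - c') ^ 2) / 4 * r
    have h1 : ((a - a') * (b - b') + (b - b') * (c - c') + (c - c') * (e - e') : ℤ) = 0 :=
      by_contra fun n => (Nat.prime_three.irrational_sqrt.mul_intCast n).ne_int _
        ((by norm_num : √(3 : ℕ) * _ = √3 * _).trans k)
    rw [h1, Int.cast_zero, mul_zero, eq_comm, Int.cast_eq_zero] at k
    zify
    exact ⟨by linear_combination h1, by linear_combination -k⟩

theorem nrm_zero {p q : ℕ} (h : nrm p q 0 = true) : p = q := by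
  simp only [nrm, Bool.and_eq_true, Nat.beq_eq] at h
  have h := h.2
  zify at h
  have : ((p % 9 : ℤ) - q % 9) = 0 ∧ ((p / 9 % 9 : ℤ) - q / 9 % 9) = 0 ∧
      ((p / 81 % 9 : ℤ) - q / 81 % 9) = 0 ∧ ((p / 729 : ℤ) - q / 729) = 0 := by
    generalize (p % 9 : ℤ) = a, (p / 9 % 9 : ℤ) = b, (p / 81 % 9 : ℤ) = c, (p / 729 : ℤ) = e,
      (q % 9 : ℤ) = a', (q / 9 % 9 : ℤ) = b', (q / 81 % 9 : ℤ) = c', (q / 729 : ℤ) = e' at h ⊢
    have k : (a - a' + (c - c')) ^ 2 + (a - a') ^ 2 + (c - c') ^ 2 + (b - b' + (e - e')) ^ 2 +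
      (b - b') ^ 2 + (e - e') ^ 2 = 0 := by linear_combination 2 * h
    refine ⟨?_, ?_, ?_, ?_⟩ <;> refine pow_eq_zero_iff two_ne_zero |>.1 (le_antisymm ?_ (sq_nonneg _)) <;>
      nlinarith [sq_nonneg (a - a' + (c - c')), sq_nonneg (a - a'), sq_nonneg (c - c'),
        sq_nonneg (b - b' + (e - e')), sq_nonneg (b - b'), sq_nonneg (e - e')]
  omega

theorem exists_emb {z : Pl} (hz : z ≠ 0) : ∃ ι, Emb ι z ∧ ι 3280 = 0 := by
  have o1 : cu 3280 = 0 := by norm_num [cu]
  have o2 : cv 3280 = 0 := by norm_num [cv]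
  have hz' : z 0 ^ 2 + z 1 ^ 2 ≠ 0 := fun c => hz (by
    ext i
    fin_cases i <;> simp <;> nlinarith [sq_nonneg (z 0), sq_nonneg (z 1)])
  have fin : ∀ p d : ℕ, p ≠ 3280 → Set.Finite {t : ℝ | (z 0 ^ 2 + z 1 ^ 2 + cu p ^ 2 + cv p ^ 2 - d) *
      (1 + t ^ 2) = 2 * (z 0 * cu p + z 1 * cv p) * (1 - t ^ 2) + 4 * (z 1 * cu p - z 0 * cv p) * t} := by
    intro p d hp
    have h1 : cu p ^ 2 + cv p ^ 2 ≠ 0 := fun c =>
      hp (nrm_zero ((nrm_iff p 3280 0).2 (by simpa [o1, o2] using c)))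
    set γ := z 0 ^ 2 + z 1 ^ 2 + cu p ^ 2 + cv p ^ 2 - d
    set α := z 0 * cu p + z 1 * cv p with hα
    set β := z 1 * cu p - z 0 * cv p with hβ
    refine (Polynomial.finite_setOfPred_isRoot (p := .C (γ + 2 * α) * .X ^ 2 + .C (-4 * β) * .X +
      .C (γ - 2 * α)) fun c => mul_ne_zero hz' h1 ?_).subset fun t ht => ?_
    · have c0 := congrArg (Polynomial.eval 0) c
      have c1 := congrArg (Polynomial.eval 1) c
      have c2 := congrArg (Polynomial.eval (-1)) c
      simp only [Polynomial.eval_add, Polynomial.eval_mul, Polynomial.eval_C, Polynomial.eval_pow,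
        Polynomial.eval_X, Polynomial.eval_zero] at c0 c1 c2
      have : α ^ 2 + β ^ 2 = 0 := by
        rw [show α = 0 by linarith, show β = 0 by linarith]
        simp
      rw [hα, hβ] at this
      linear_combination this
    · simp only [mem_ofPred_eq, Polynomial.IsRoot, Polynomial.eval_add, Polynomial.eval_mul,
        Polynomial.eval_C, Polynomial.eval_pow, Polynomial.eval_X] at ht ⊢
      linear_combination ht
  obtain ⟨t, ht⟩ := (ne_univ_iff_exists_notMem _).1 fun c => Cardinal.not_countable_real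
    (c ▸ countable_iUnion fun x : {p // p ≠ 3280} × ℕ => (fin x.1 x.2 x.1.2).countable)
  have t0 : 1 + t ^ 2 ≠ 0 := by positivity
  let ι : ℕ → Pl := fun p => !₂[((1 - t ^ 2) * cu p - 2 * t * cv p) / (1 + t ^ 2),
    (2 * t * cu p + (1 - t ^ 2) * cv p) / (1 + t ^ 2)]
  have hd : ∀ p q d : ℕ, nrm p q d = true ↔ dist (ι p) (ι q) ^ 2 = d := fun p q d => by
    rw [nrm_iff, EuclideanSpace.dist_sq_eq]
    refine iff_of_eq (congrArg (· = _) ?_)
    simp [ι, Real.dist_eq]
    field_simp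
    ring
  refine ⟨ι, ⟨hd, fun p q c => nrm_zero ((hd p q 0).2 (by simp [c])), fun p hp d c => ht
    (mem_iUnion.2 ⟨(⟨p, hp⟩, d), ?_⟩)⟩, by ext i; fin_cases i <;> simp [ι, o1, o2]⟩
  rw [EuclideanSpace.dist_sq_eq] at c
  simp [ι, Real.dist_eq] at c
  simp only [mem_ofPred_eq, ← c]
  field_simp
  ring

theorem root_ok (hF : Fam F G S) {n m : ℕ} {s : Tr} (h : root G S n m s = true) :
    FirstWins F (n + 2) := by
  simp only [root, Bool.and_eq_true, Bool.not_eq_true'] at h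
  obtain ⟨⟨⟨h1, h2⟩, h3⟩, h4⟩ := h
  have mono : ∀ {P Q : Set Pl}, P ⊆ Q → Owns F P → Owns F Q :=
    fun h ⟨T, a, e, b, c⟩ => ⟨T, a, e, b, fun x hx => h (c x hx)⟩
  have key : ∀ z ≠ 0, ¬ Owns F {z} ∧ Win F (n + 1) {0} {z} := fun z hz => by
    obtain ⟨ι, E, o⟩ := exists_emb hz
    refine ⟨fun c => safe_ok E hF h3 (by simp) (W := ∅) le_rfl z (mono (by simp) c), ?_⟩
    split at h4
    · rename_i U k
      simpa [pos, o] using step E hF (A := [3280]) (by simp) (by simp)
        (by simpa using Nat.ne_of_beq_eq_false h1) (by simp) h3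
        (go_ok E hF _ _ _ _ _ _ _ (by simp) (by simp) k h2) ∅ le_rfl (by simp)
    · exact nomatch h4
  obtain ⟨z, hz⟩ := exists_ne (0 : Pl)
  exact firstWins (fun c => (key z hz).1 (mono (empty_subset _) c))
    ⟨0, id, id, Or.inr fun y a _ => by simpa using key y (by simpa using a)⟩

theorem fam7 : Fam {T | T.card = 7} [0, 1, 2, 3, 4, 5, 6, 7, 8] 7 :=
  ⟨fun o h h' => by
    have : ∀ o ∈ [0, 1, 2, 3, 4, 5, 6, 7, 8].sublists, 7 ≤ o.length →
      7 ≤ (Finset.univ.filter fun a => code a ∈ o).card := by decide +kernel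
    obtain ⟨T, a, b⟩ := Finset.exists_subset_card_eq (this o (List.mem_sublists.2 h) h')
    exact ⟨T, b, fun x hx => (Finset.mem_filter.1 (a hx)).2⟩,
   fun T h => ⟨h.ge, fun a _ =>
     (by decide : ∀ a, code a ∈ [0, 1, 2, 3, 4, 5, 6, 7, 8]) a⟩⟩

theorem fam1 {T : Finset (Fin 3 × Fin 3)} (h : G.length ≤ T.card ∧ ∀ a ∈ T, code a ∈ G) :
    Fam {T} G G.length :=
  ⟨fun _ a b => ⟨T, rfl, a.eq_of_length_le b ▸ h.2⟩, fun _ c => c ▸ h⟩

end Pool.Agent.MP_32430d_co
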