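import Mathlib.Analysis.InnerProductSpace.PiL2

/-! The building race on an arbitrary infinite board, for a monotone winning property. -/

set_option autoImplicit false

open Set

namespace Pool.Agent.MP_32430d_co.Race

variable {X : Type}

/-- the player to move, who owns `A`, wins within `n` moves -/
def Win (Own : Set X → Prop) : ℕ → Set X → Set X → Prop
  | 0, _, _ => False
  | n + 1, A, B => ∃ m, m ∉ A ∧ m ∉ B ∧ (Own (insert m A) ∨ ∀ y, y ∉ insert m A → y ∉ B →
      ¬ Own (insert y B) ∧ Win Own n (insert m A) (insert y B))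

/-- the same, where the player to move may also pass by naming one of his own points -/
def W (Own : Set X → Prop) : ℕ → Set X → Set X → Prop
  | 0, _, _ => False
  | n + 1, A, B => ∃ m, m ∉ B ∧ (Own (insert m A) ∨ ∀ y, y ∉ insert m A → y ∉ B →
      ¬ Own (insert y B) ∧ W Own n (insert m A) (insert y B))

variable {Own : Set X → Prop}

theorem W.win [Infinite X] (mono : ∀ P Q, P ⊆ Q → Own P → Own Q) :
    ∀ (n : ℕ) (A A' B : Set X), A ⊆ A' → A'.Finite → B.Finite → W Own n A B → Win Own n A' B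
  | 0, _, _, _, _, _, _, h => h
  | n + 1, A, A', B, h1, h2, h3, ⟨m, hm, h⟩ => by
    obtain ⟨m', a, b, c⟩ : ∃ m', m' ∉ A' ∧ m' ∉ B ∧ insert m A ⊆ insert m' A' := by
      by_cases c : m ∈ A'
      · obtain ⟨m', hm'⟩ := (h2.union h3).exists_notMem
        exact ⟨m', fun e => hm' (Or.inl e), fun e => hm' (Or.inr e),
          (insert_subset c h1).trans (subset_insert _ _)⟩
      · exact ⟨m, c, hm, insert_subset_insert h1⟩
    refine ⟨m', a, b, h.imp (mono _ _ c) fun h y y1 y2 => ?_⟩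
    obtain ⟨k1, k2⟩ := h y (fun e => y1 (c e)) y2
    exact ⟨k1, W.win mono n _ _ _ c (h2.insert _) (h3.insert _) k2⟩

theorem W.succ : ∀ (n : ℕ) (A B : Set X), W Own n A B → W Own (n + 1) A B
  | 0, _, _, h => h.elim
  | n + 1, _, _, ⟨m, hm, h⟩ =>
    ⟨m, hm, h.imp id fun h y y1 y2 => ⟨(h y y1 y2).1, W.succ n _ _ (h y y1 y2).2⟩⟩

theorem W.le {n k : ℕ} {A B : Set X} (h : W Own n A B) (hk : n ≤ k) : W Own k A B := by
  induction hk with
  | refl => exact h
  | step _ ih => exact W.succ _ _ _ ih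

theorem W.map {Y : Type} (f : Y ≃ X) : ∀ (n : ℕ) (A B : Set Y),
    W (fun P => Own (f '' P)) n A B → W Own n (f '' A) (f '' B)
  | 0, _, _, h => h
  | n + 1, A, B, ⟨m, hm, h⟩ => by
    refine ⟨f m, by simpa using hm, ?_⟩
    rw [← image_insert_eq]
    refine h.imp id fun h y y1 y2 => ?_
    obtain ⟨y, rfl⟩ := f.surjective y
    rw [← image_insert_eq]
    obtain ⟨k1, k2⟩ := h y (fun e => y1 (mem_image_of_mem _ e)) (fun e => y2 (mem_image_of_mem _ e))
    exact ⟨k1, W.map f n _ _ k2⟩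

/-- a move with a threat -/
theorem threat {n : ℕ} {A B : Set X} (m q : X) (hm : m ∉ B) (hq : q ∉ B)
    (ho : Own (insert q (insert m A))) (hs : ∀ y, ¬ Own (insert y B))
    (hc : q ∉ insert m A → W Own (n + 1) (insert m A) (insert q B)) : W Own (n + 2) A B := by
  refine ⟨m, hm, ?_⟩
  by_cases c : q ∈ insert m A
  · exact Or.inl (by rwa [insert_eq_of_mem c] at ho)
  · refine Or.inr fun y _ _ => ⟨hs y, ?_⟩
    by_cases e : q = y
    · exact e ▸ hc c
    · exact ⟨q, fun h => h.elim e hq, Or.inl ho⟩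

/-- a move with two threats -/
theorem double {n : ℕ} {A B : Set X} (m q r : X) (hm : m ∉ B) (hq : q ∉ B) (hr : r ∉ B)
    (hqr : r ≠ q) (ho : Own (insert q (insert m A))) (ho' : Own (insert r (insert m A)))
    (hs : ∀ y, ¬ Own (insert y B)) : W Own (n + 2) A B :=
  threat m q hm hq ho hs fun _ => ⟨r, fun h => h.elim hqr hr, Or.inl ho'⟩

theorem firstWins [Infinite X] {N : ℕ} (h0 : ¬ Own ∅) (h : Win Own N ∅ ∅) :
    ∃ σ : List X → X, ∀ x : ℕ → X,
      (∀ k : ℕ, x (2 * k) = σ (List.ofFn (fun i : Fin (2 * k) => x i))) →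
      (∀ k : ℕ, ∀ j : ℕ, j < 2 * k + 1 → x (2 * k + 1) ≠ x j) →
      (∀ k : ℕ, ∀ j : ℕ, j < 2 * k → x (2 * k) ≠ x j) ∧
      ∃ n : ℕ, n < N ∧ Own {p | ∃ i : ℕ, i ≤ n ∧ p = x (2 * i)} ∧
        ¬ Own {p | ∃ i : ℕ, i < n ∧ p = x (2 * i + 1)} := by
  classical
  have key : ∀ l : List X, ∃ m, m ∉ l ∧ ∀ n A B, N - l.length / 2 = n + 1 →
      A = {p | ∃ i, l[2 * i]? = some p} → B = {p | ∃ i, l[2 * i + 1]? = some p} →
      Win Own (n + 1) A B → Own (insert m A) ∨ ∀ y, y ∉ insert m A → y ∉ B →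
      ¬ Own (insert y B) ∧ Win Own n (insert m A) (insert y B) := fun l => by
    by_cases c : ∃ n, N - l.length / 2 = n + 1 ∧
        Win Own (n + 1) {p | ∃ i, l[2 * i]? = some p} {p | ∃ i, l[2 * i + 1]? = some p}
    · obtain ⟨n, e, m, h1, h2, h3⟩ := c
      refine ⟨m, fun c => ?_, fun n' A B e' hA hB _ => ?_⟩
      · obtain ⟨j, hj⟩ := List.mem_iff_getElem?.1 c
        rcases Nat.even_or_odd' j with ⟨i, rfl | rfl⟩
        exacts [h1 ⟨i, hj⟩, h2 ⟨i, hj⟩]
      · obtain rfl : n' = n := by omega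
        exact hA ▸ hB ▸ h3
    · obtain ⟨m, hm⟩ := Infinite.exists_notMem_finset l.toFinset
      exact ⟨m, by simpa using hm, fun n A B e hA hB w => absurd ⟨n, e, hA ▸ hB ▸ w⟩ c⟩
  choose σ h1 h2 using key
  refine ⟨σ, fun x hx hy => ?_⟩
  have new : ∀ k j, j < 2 * k → x (2 * k) ≠ x j := fun k j hj c =>
    h1 (List.ofFn fun i : Fin (2 * k) => x i) (List.mem_ofFn.2 ⟨⟨j, hj⟩, c.symm.trans (hx k)⟩)
  refine ⟨new, ?_⟩
  have ins : ∀ (f : ℕ → ℕ) (k : ℕ), {p | ∃ i < k + 1, p = x (f i)} =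
      insert (x (f k)) {p | ∃ i < k, p = x (f i)} := fun f k => by
    ext p
    simp only [mem_ofPred_eq, mem_insert_iff, Nat.lt_succ_iff_lt_or_eq]
    exact ⟨fun ⟨i, a, b⟩ => a.elim (fun a => Or.inr ⟨i, a, b⟩) fun a => Or.inl (a ▸ b),
      fun a => a.elim (fun a => ⟨k, Or.inr rfl, a⟩) fun ⟨i, a, b⟩ => ⟨i, Or.inl a, b⟩⟩
  by_contra c
  have : ∀ k ≤ N, Win Own (N - k) {p | ∃ i < k, p = x (2 * i)} {p | ∃ i < k, p = x (2 * i + 1)} ∧
      ¬ Own {p | ∃ i < k, p = x (2 * i + 1)} := by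
    intro k
    induction k with
    | zero => exact fun _ => by simpa using And.intro h h0
    | succ k ih =>
      intro hk
      obtain ⟨w, n⟩ := ih (by omega)
      rw [show N - k = N - (k + 1) + 1 by omega] at w
      have := h2 (List.ofFn fun i : Fin (2 * k) => x i) _ _ _ (by simp; omega)
        (by ext p; simp [List.getElem?_ofFn, eq_comm])
        (by ext p; simp only [List.getElem?_ofFn, mem_ofPred_eq]
            refine exists_congr fun i => ?_
            by_cases c : i < k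
            · simp [c, show 2 * i + 1 < 2 * k by omega, eq_comm]
            · simp [c, show ¬ 2 * i + 1 < 2 * k by omega]) w
      rw [← hx k, ← ins (2 * ·)] at this
      rw [ins (2 * · + 1)]
      refine (this.resolve_left (fun o => c ⟨k, hk, by simpa [Nat.lt_succ_iff] using o, n⟩) _ ?_ ?_).symm
      · rintro ⟨i, a, b⟩
        exact hy k _ (by omega) b
      · rintro ⟨i, a, b⟩
        exact hy k _ (by omega) b
  simpa [Win] using (this N le_rfl).1

end Pool.Agent.MP_32430d_co.Race
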